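import Pool.Agent.Skula.Defs

/-!
# Basic lemmas: derivative equations, narrowness and scatteredness of sums of well-orders
-/

namespace Pool.Agent.Skula

open Set Topology Order

universe u

theorem cb_zero (X : Type u) [TopologicalSpace X] : cb X 0 = univ := by
  unfold cb; exact Ordinal.limitRecOn_zero _ _ _

theorem cb_succ (X : Type u) [TopologicalSpace X] (α : Ordinal.{u}) :
    cb X (α + 1) = cb X α \ isolated (cb X α) := by
  unfold cb
  rw [Ordinal.limitRecOn_add_one]

theorem cb_limit (X : Type u) [TopologicalSpace X] (α : Ordinal.{u}) (h : IsSuccLimit α) :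
    cb X α = ⋂ (β) (_ : β < α), cb X β := by
  unfold cb
  rw [Ordinal.limitRecOn_limit _ _ _ _ h]

theorem mem_cb_succ {X : Type u} [TopologicalSpace X] {α : Ordinal.{u}} {x : X} :
    x ∈ cb X (α + 1) ↔ x ∈ cb X α ∧
      ∀ V : Set X, IsOpen V → x ∈ V → ∃ y ∈ V, y ∈ cb X α ∧ y ≠ x := by
  rw [cb_succ]
  constructor
  · rintro ⟨hx, hn⟩
    refine ⟨hx, fun V hV hxV => ?_⟩
    by_contra hcon
    push Not at hcon
    apply hn
    refine ⟨hx, V, hV, ?_⟩
    ext y
    constructor
    · rintro ⟨hy1, hy2⟩
      exact hcon y hy1 hy2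
    · rintro rfl
      exact ⟨hxV, hx⟩
  · rintro ⟨hx, hV⟩
    refine ⟨hx, ?_⟩
    rintro ⟨-, V, hVo, hVe⟩
    have hxV : x ∈ V := by
      have : x ∈ V ∩ cb X α := by rw [hVe]; rfl
      exact this.1
    obtain ⟨y, hyV, hyc, hyx⟩ := hV V hVo hxV
    have : y ∈ V ∩ cb X α := ⟨hyV, hyc⟩
    rw [hVe] at this
    exact hyx this

/-- A linear order is narrow. -/
theorem narrow_of_linearOrder (C : Type u) [LinearOrder C] : Narrow C := by
  intro A hA
  apply Set.Subsingleton.finite
  intro x hx y hy
  by_contra hne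
  rcases le_total x y with h | h
  · exact hA hx hy hne h
  · exact hA hy hx (Ne.symm hne) h

theorem narrow_sum {C D : Type u} [PartialOrder C] [PartialOrder D] (hC : Narrow C)
    (hD : Narrow D) : Narrow (C ⊕ D) := by
  intro A hA
  have h1 : (Sum.inl ⁻¹' A : Set C).Finite := by
    apply hC
    intro x hx y hy hne hle
    exact hA hx hy (fun h => hne (Sum.inl_injective h)) (Sum.inl_le_inl_iff.2 hle)
  have h2 : (Sum.inr ⁻¹' A : Set D).Finite := by
    apply hD
    intro x hx y hy hne hle
    exact hA hx hy (fun h => hne (Sum.inr_injective h)) (Sum.inr_le_inr_iff.2 hle)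
  refine ((h1.image Sum.inl).union (h2.image Sum.inr)).subset ?_
  rintro (x | x) hx
  · exact Or.inl ⟨x, hx, rfl⟩
  · exact Or.inr ⟨x, hx, rfl⟩

theorem orderScattered_of_wellFoundedLT (P : Type u) [PartialOrder P] [WellFoundedLT P] :
    OrderScattered P := by
  intro Q
  constructor
  intro f
  let g : ℕ → P := fun n => (f (-(n : ℚ)) : P)
  have hg : StrictAnti g := by
    intro a b hab
    show ((f (-(b : ℚ)) : Q) : P) < ((f (-(a : ℚ)) : Q) : P)
    have : (-(b : ℚ)) < -(a : ℚ) := by
      have : (a : ℚ) < b := by exact_mod_cast hab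
      linarith
    exact f.strictMono this
  have hE := (RelEmbedding.wellFounded_iff_isEmpty (r := ((· < ·) : P → P → Prop))).1
    wellFounded_lt
  exact hE.false (RelEmbedding.natGT g (fun n => hg (Nat.lt_succ_self n)))

theorem wellFoundedLT_sum {C D : Type u} [PartialOrder C] [PartialOrder D] [WellFoundedLT C]
    [WellFoundedLT D] : WellFoundedLT (C ⊕ D) := by
  constructor
  constructor
  have h1 : ∀ c : C, Acc (fun x y : C ⊕ D => x < y) (Sum.inl c) := by
    intro c
    induction c using WellFoundedLT.induction with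
    | ind c ih =>
      constructor
      rintro (x | x) hx
      · exact ih x (Sum.inl_lt_inl_iff.1 hx)
      · exact absurd hx Sum.not_inr_lt_inl
  have h2 : ∀ d : D, Acc (fun x y : C ⊕ D => x < y) (Sum.inr d) := by
    intro d
    induction d using WellFoundedLT.induction with
    | ind d ih =>
      constructor
      rintro (x | x) hx
      · exact absurd hx Sum.not_inl_lt_inr
      · exact ih x (Sum.inr_lt_inr_iff.1 hx)
  rintro (x | x)
  · exact h1 x
  · exact h2 x

end Pool.Agent.Skula
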