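import Mathlib

/-!
# Final-set spaces, Cantor-Bendixson derivatives and (canonical) clopen selectors
-/

namespace Pool.Agent.Skula

open Set Topology

universe u

/-- A poset is *narrow* if every antichain (set of pairwise incomparable elements) is finite. -/
def Narrow (P : Type u) [PartialOrder P] : Prop :=
  ∀ A : Set P, IsAntichain (· ≤ ·) A → A.Finite

/-- A poset is *order-scattered* if it has no subset order-isomorphic to `ℚ`. -/
def OrderScattered (P : Type u) [PartialOrder P] : Prop :=
  ∀ Q : Set P, IsEmpty (ℚ ≃o Q)

/-- `FS P`: the set of all final subsets of `P`, coded by their characteristic functions, as a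
subset of `{0,1}^P = (P → Bool)`, whose topology is the product topology. -/
def FS (P : Type u) [PartialOrder P] : Set (P → Bool) :=
  {χ | ∀ x y : P, x ≤ y → χ x = true → χ y = true}

/-- The isolated points of a subset `A` of a topological space `X`, that is, the isolated points
of the subspace `A`. -/
def isolated {X : Type u} [TopologicalSpace X] (A : Set X) : Set X :=
  {x | x ∈ A ∧ ∃ V : Set X, IsOpen V ∧ V ∩ A = {x}}

/-- The Cantor-Bendixson derivative `X^(α)`: `X^(0) = X`, `X^(α+1)` is `X^(α)` minus its isolated
points, and intersections are taken at limit ordinals. -/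
noncomputable def cb (X : Type u) [TopologicalSpace X] (α : Ordinal.{u}) : Set X :=
  Ordinal.limitRecOn α univ (fun _ A => A \ isolated A) (fun α _ A => ⋂ (β) (h : β < α), A β h)

/-- `U` is a clopen selector for `X`. -/
structure IsClopenSelector {X : Type u} [TopologicalSpace X] (U : X → Set X) : Prop where
  isClopen : ∀ x, IsClopen (U x)
  mem : ∀ x, x ∈ U x
  antisymm : ∀ x y, x ≠ y → x ∉ U y ∨ y ∉ U x
  subset : ∀ x y, y ∈ U x → U y ⊆ U x

/-- A clopen selector `U` is canonical if for every `x`, with Cantor-Bendixson rank `α` (that is,
`x` is in `X^(α)` and not in `X^(α+1)`), `x` is the only point of `U x` whose rank is at least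
`α`, that is, the only point of `U x` in `X^(α)`. -/
def IsCanonical {X : Type u} [TopologicalSpace X] (U : X → Set X) : Prop :=
  ∀ (x : X) (α : Ordinal.{u}), x ∈ cb X α → x ∉ cb X (α + 1) →
    U x ∩ cb X α = {x}

/-- `X` is canonically Skula: `X` is compact Hausdorff and has a canonical clopen selector. -/
def CanonicallySkula (X : Type u) [TopologicalSpace X] : Prop :=
  CompactSpace X ∧ T2Space X ∧ ∃ U : X → Set X, IsClopenSelector U ∧ IsCanonical U

end Pool.Agent.Skula
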