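import Pool.Agent.Skula.Ranks

/-!
# `K` has no canonical clopen selector
-/

namespace Pool.Agent.Skula

open Set Topology Order Filter Ordinal

theorem isSuccLimit_omega_one : IsSuccLimit (ω₁ : Ordinal.{0}) := Cardinal.isSuccLimit_omega 1

theorem countable_toType {a : Ordinal.{0}} (ha : a < ω₁) : Countable a.ToType := by
  rw [← Cardinal.mk_le_aleph0_iff, Cardinal.mk_toType]
  have h1 : a.card < Cardinal.aleph 1 := by
    rw [← Cardinal.lt_ord, Cardinal.ord_aleph]
    exact ha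
  rw [← Cardinal.succ_aleph0] at h1
  exact Order.le_of_lt_succ h1

/-- a function `ω₁ → ω₁` has a limit closure point -/
theorem exists_closure (e : Ordinal.{0} → Ordinal.{0}) (he : ∀ j < ω₁, e j < ω₁) :
    ∃ i < ω₁, IsSuccLimit i ∧ ∀ j < i, e j ≤ i := by
  let f : Ordinal.{0} → Ordinal.{0} := fun a =>
    succ (max a (⨆ x : (succ a).ToType, e (x.toOrd : Ordinal.{0})))
  have hf : ∀ a < ω₁, f a < ω₁ := by
    intro a ha
    have h1 : succ a < ω₁ := isSuccLimit_omega_one.succ_lt ha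
    have := countable_toType h1
    have h2 : (⨆ x : (succ a).ToType, e (x.toOrd : Ordinal.{0})) < ω₁ :=
      Ordinal.iSup_lt_omega_one fun x => he _ ((toOrd_lt x).trans h1)
    exact isSuccLimit_omega_one.succ_lt (max_lt ha h2)
  have hf1 : ∀ a, a < f a := fun a => lt_succ_of_le (le_max_left _ _)
  have hf2 : ∀ a j, j ≤ a → e j < f a := by
    intro a j hj
    apply lt_succ_of_le
    refine le_trans ?_ (le_max_right _ _)
    have h := Ordinal.le_iSup (fun x : (succ a).ToType => e (x.toOrd : Ordinal.{0}))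
      (elt j (lt_succ_of_le hj))
    simpa [toOrd_elt] using h
  have h0 : (0 : Ordinal.{0}) < ω₁ := isSuccLimit_omega_one.bot_lt
  have key : nfp f 0 < ω₁ := nfp_lt_ord (by
    rw [Cardinal.cof_omega_one]
    exact Cardinal.aleph0_lt_aleph_one) hf h0
  refine ⟨nfp f 0, key, ?_, ?_⟩
  · have h1 : IsSuccPrelimit (nfp f 0) := by
      refine isSuccPrelimit_of_succ_lt fun a ha => ?_
      obtain ⟨n, hn⟩ := lt_nfp_iff.1 ha
      have h2 : f^[n] 0 < f^[n+1] 0 := by
        rw [Function.iterate_succ_apply']; exact hf1 _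
      exact lt_of_le_of_lt (succ_le_of_lt hn) (lt_of_lt_of_le h2 (iterate_le_nfp f 0 (n+1)))
    have h3 : nfp f 0 ≠ 0 := by
      have := iterate_le_nfp f 0 1
      have h4 := hf1 0
      intro h
      rw [h] at this
      exact absurd (lt_of_lt_of_le h4 this) (lt_irrefl _)
    exact ⟨by rwa [isMin_iff_eq_bot], h1⟩
  · intro j hj
    obtain ⟨n, hn⟩ := lt_nfp_iff.1 hj
    have h2 : e j < f^[n+1] 0 := by
      rw [Function.iterate_succ_apply']; exact hf2 _ _ hn.le
    exact h2.le.trans (iterate_le_nfp f 0 (n+1))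

/-- (a) -/
theorem tendsto_a {lam j : Ordinal.{0}} :
    Tendsto (fun p : Iio (ω₁ : Ordinal.{0}) => kt lam p j) atTop (𝓝 (kt lam ω₁ j)) := by
  apply tendsto_subtype_rng.2
  refine tendsto_pt ?_ ?_ ?_ ?_ ?_ ?_
  · exact tendsto_Iio isSuccLimit_omega_one
  · exact Eventually.of_forall fun i => le_of_lt i.2
  · intro a ha; exact Eventually.of_forall fun _ => ha
  · exact Eventually.of_forall fun _ => le_rfl
  · intro a ha; exact Eventually.of_forall fun _ => ha
  · exact Eventually.of_forall fun _ => le_rfl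

/-- (c) -/
theorem tendsto_c {lam p i : Ordinal.{0}} (hi : IsSuccLimit i) :
    Tendsto (fun j : Iio i => kt lam p j) atTop (𝓝 (kt lam p i)) := by
  apply tendsto_subtype_rng.2
  refine tendsto_pt ?_ ?_ ?_ ?_ ?_ ?_
  · intro a ha; exact Eventually.of_forall fun _ => ha
  · exact Eventually.of_forall fun _ => le_rfl
  · exact tendsto_Iio hi
  · exact Eventually.of_forall fun i => le_of_lt i.2
  · intro a ha; exact Eventually.of_forall fun _ => ha
  · exact Eventually.of_forall fun _ => le_rfl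

/-- Every clopen selector of `K` puts some diagonal point `(i,i,lam)` in the set of `(ω₁,i,lam)`. -/
theorem selector_diag {lam : Ordinal.{0}} (U : K lam → Set (K lam)) (hU : IsClopenSelector U) :
    ∃ i < ω₁, kt lam i i ∈ U (kt lam ω₁ i) := by
  have ha : ∀ j : Ordinal.{0}, ∃ e : Ordinal.{0}, e < ω₁ ∧
      ∀ p, e ≤ p → p < ω₁ → kt lam p j ∈ U (kt lam ω₁ j) := by
    intro j
    have hev := (tendsto_a (lam := lam) (j := j)).eventually
      ((hU.isClopen (kt lam ω₁ j)).2.mem_nhds (hU.mem _))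
    have := nonempty_Iio isSuccLimit_omega_one
    obtain ⟨⟨e, he⟩, heV⟩ := eventually_atTop.1 hev
    exact ⟨e, he, fun p hp hp' => heV ⟨p, hp'⟩ hp⟩
  choose e he1 he2 using ha
  obtain ⟨i, hi, hlim, hcl⟩ := exists_closure e (fun j _ => he1 j)
  refine ⟨i, hi, ?_⟩
  have hev := (tendsto_c (lam := lam) (p := ω₁) hlim).eventually
      ((hU.isClopen (kt lam ω₁ i)).2.mem_nhds (hU.mem _))
  have := nonempty_Iio hlim
  have hev2 : ∀ᶠ j : Iio i in atTop, kt lam i j ∈ U (kt lam ω₁ i) := by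
    filter_upwards [hev] with j hj
    exact hU.subset _ _ hj (he2 j i (hcl j j.2) hi)
  exact (hU.isClopen (kt lam ω₁ i)).1.mem_of_tendsto (tendsto_c (lam := lam) (p := i) hlim) hev2

/-- the exponent -/
noncomputable def kap : Ordinal.{0} := rk ω₁ ω₁ + 1

theorem rk_le_rk {p q : Ordinal.{0}} (hp : p ≤ ω₁) (hq : q ≤ ω₁) : rk p q ≤ rk ω₁ ω₁ := by
  unfold rk
  gcongr

theorem not_canonical (U : K (ω ^ kap) → Set (K (ω ^ kap))) (hU : IsClopenSelector U)
    (hC : IsCanonical U) : False := by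
  obtain ⟨i, hi, hmem⟩ := selector_diag U hU
  set x : K (ω ^ kap) := kt (ω ^ kap) ω₁ i with hx
  -- the point `x` has rank below `kap`
  have hx1 : x.1 (Sum.inl (elt i hi)) = false := by
    show cut ω₁ ω₁ _ = false
    rw [cut_false, toOrd_elt]; exact hi
  have hx2 : x.1 (Sum.inr (Sum.inl (elt i hi))) = true := by
    show cut ω₁ i _ = true
    rw [cut_true, toOrd_elt]
  have hxk : ∀ α, x ∈ cb _ α → α ≤ rk ω₁ ω₁ := fun α hα =>
    (rank_le (elt i hi) α ω₁ le_rfl i hi.le hx1 hx2 hα).trans (rk_le_rk le_rfl hi.le)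
  -- the diagonal point is in all derivatives up to `kap`
  have hy : ∀ γ ≤ kap, kt (ω ^ kap) i i ∈ cb (K (ω ^ kap)) γ := by
    intro γ hγ
    have h1 := line_mem (lam := ω ^ kap) (p := i) γ kap hγ 0 (by rw [zero_add])
    rw [zero_add] at h1
    exact h1
  -- find the rank of `x`
  have hex : ∃ α, x ∉ cb (K (ω ^ kap)) α := ⟨kap, fun h => by
    have h1 := hxk _ h
    unfold kap at h1
    rw [← succ_eq_add_one] at h1
    exact absurd h1 (not_le.2 (lt_succ _))⟩
  obtain ⟨α, hα, hmin⟩ : ∃ α, x ∉ cb (K (ω ^ kap)) α ∧ ∀ β < α, x ∈ cb (K (ω ^ kap)) β := by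
    refine ⟨sInf {α | x ∉ cb (K (ω ^ kap)) α}, csInf_mem hex, fun β hβ => ?_⟩
    by_contra hcon
    exact absurd (csInf_le (OrderBot.bddBelow _) hcon) (not_le.2 hβ)
  rcases zero_or_succ_or_isSuccLimit α with h0 | ⟨β, hβ⟩ | hl
  · rw [h0, cb_zero] at hα
    exact hα trivial
  · have hxβ : x ∈ cb (K (ω ^ kap)) β := hmin β (by rw [← hβ]; exact lt_succ β)
    have hxβ' : x ∉ cb (K (ω ^ kap)) (β + 1) := by
      rw [← succ_eq_add_one, hβ]; exact hα
    have hcan := hC x β hxβ hxβ'
    have hβk : β ≤ kap := (hxk β hxβ).trans (by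
      unfold kap
      rw [← succ_eq_add_one]; exact (lt_succ _).le)
    have hyx : kt (ω ^ kap) i i ∈ U x ∩ cb (K (ω ^ kap)) β := ⟨hmem, hy β hβk⟩
    rw [hcan] at hyx
    have heq : kt (ω ^ kap) i i = x := hyx
    have h3 : (kt (ω ^ kap) i i).1 (Sum.inl (elt i hi)) = true := by
      show cut ω₁ i _ = true
      rw [cut_true, toOrd_elt]
    rw [heq, hx1] at h3
    exact Bool.false_ne_true h3
  · apply hα
    rw [cb_limit _ _ hl]
    simp only [mem_iInter]
    exact hmin

theorem exists_not_canonicallySkula :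
    ∃ (P : Type) (_ : PartialOrder P), WellFoundedLT P ∧ Narrow P ∧ OrderScattered P ∧
      ∃ K : Set (P → Bool), K ⊆ FS P ∧ IsClosed K ∧ ¬ CanonicallySkula K := by
  have hw := wellFoundedLT_PP (ω ^ kap)
  refine ⟨PP (ω ^ kap), inferInstance, hw, narrow_PP _, orderScattered_of_wellFoundedLT _,
    K (ω ^ kap), K_subset _, isClosed_K _, ?_⟩
  rintro ⟨-, -, U, hU, hC⟩
  exact not_canonical U hU hC

end Pool.Agent.Skula
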