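import Pool.Agent.Skula.Basic

/-!
# The poset `ω₁ ⊔ ω₁ ⊔ λ`, its final sets and the closed set `K`
-/

namespace Pool.Agent.Skula

open Set Topology Order Filter Ordinal

/-- The final segment `{x | p ≤ x}` of the ordinal `o`. -/
noncomputable def cut (o p : Ordinal.{0}) : o.ToType → Bool :=
  fun x => decide (p ≤ (x.toOrd : Ordinal.{0}))

theorem cut_true {o p : Ordinal.{0}} {x : o.ToType} :
    cut o p x = true ↔ p ≤ (x.toOrd : Ordinal.{0}) := by simp [cut]

theorem cut_false {o p : Ordinal.{0}} {x : o.ToType} :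
    cut o p x = false ↔ (x.toOrd : Ordinal.{0}) < p := by simp [cut]

theorem toOrd_lt {o : Ordinal.{0}} (x : o.ToType) : (x.toOrd : Ordinal.{0}) < o := x.toOrd.2

theorem toOrd_le_toOrd {o : Ordinal.{0}} {x y : o.ToType} (h : x ≤ y) :
    (x.toOrd : Ordinal.{0}) ≤ y.toOrd :=
  (ToType.mk.symm.le_iff_le.2 h : ToType.mk.symm x ≤ ToType.mk.symm y)

/-- the element of `o.ToType` corresponding to `a < o` -/
noncomputable def elt {o : Ordinal.{0}} (a : Ordinal.{0}) (h : a < o) : o.ToType :=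
  ToType.mk ⟨a, h⟩

theorem toOrd_elt {o a : Ordinal.{0}} (h : a < o) : ((elt a h).toOrd : Ordinal.{0}) = a := by
  unfold elt ToType.toOrd
  rw [OrderIso.symm_apply_apply]

theorem elt_toOrd {o : Ordinal.{0}} (x : o.ToType) : elt (x.toOrd : Ordinal.{0}) (toOrd_lt x) = x := by
  unfold elt ToType.toOrd
  exact OrderIso.apply_symm_apply _ _

theorem elt_le_elt {o a b : Ordinal.{0}} (ha : a < o) (hb : b < o) (h : a ≤ b) :
    elt a ha ≤ elt b hb := by
  unfold elt
  exact ToType.mk.le_iff_le.2 h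

theorem cut_top {o : Ordinal.{0}} (x : o.ToType) : cut o o x = false :=
  cut_false.2 (toOrd_lt x)

theorem exists_cut {o : Ordinal.{0}} (f : o.ToType → Bool)
    (hf : ∀ x y, x ≤ y → f x = true → f y = true) : ∃ p ≤ o, f = cut o p := by
  classical
  by_cases h : ∃ x, f x = true
  · let S : Set Ordinal.{0} := {a | ∃ x : o.ToType, f x = true ∧ (x.toOrd : Ordinal.{0}) = a}
    have hS : S.Nonempty := by
      obtain ⟨x, hx⟩ := h
      exact ⟨_, x, hx, rfl⟩
    have hmem := csInf_mem hS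
    obtain ⟨x0, hx0, hx0e⟩ := hmem
    refine ⟨sInf S, ?_, ?_⟩
    · rw [← hx0e]; exact (toOrd_lt x0).le
    · funext y
      by_cases hy : sInf S ≤ (y.toOrd : Ordinal.{0})
      · rw [cut_true.2 hy]
        refine hf x0 y ?_ hx0
        rw [← hx0e] at hy
        rw [← elt_toOrd x0, ← elt_toOrd y]
        exact elt_le_elt _ _ hy
      · rw [cut_false.2 (not_le.1 hy)]
        by_contra hcon
        have hty : f y = true := by simpa using hcon
        exact hy (csInf_le (OrderBot.bddBelow _) ⟨y, hty, rfl⟩)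
  · refine ⟨o, le_rfl, ?_⟩
    funext y
    rw [cut_top]
    by_contra hcon
    exact h ⟨y, by simpa using hcon⟩

/-- The poset: disjoint union (with no relations between the parts) of the chains `ω₁`, `ω₁` and
`lam`. -/
abbrev PP (lam : Ordinal.{0}) : Type := (ω₁ : Ordinal.{0}).ToType ⊕ ((ω₁ : Ordinal.{0}).ToType ⊕ lam.ToType)

theorem narrow_PP (lam : Ordinal.{0}) : Narrow (PP lam) :=
  narrow_sum (narrow_of_linearOrder _) (narrow_sum (narrow_of_linearOrder _)
    (narrow_of_linearOrder _))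

theorem wellFoundedLT_PP (lam : Ordinal.{0}) : WellFoundedLT (PP lam) := by
  have := wellFoundedLT_sum (C := (ω₁ : Ordinal.{0}).ToType) (D := lam.ToType)
  exact wellFoundedLT_sum

/-- The point of `FS (PP lam)` with coordinates `(p, q, r)`. -/
noncomputable def pt (lam p q r : Ordinal.{0}) : PP lam → Bool :=
  Sum.elim (cut ω₁ p) (Sum.elim (cut ω₁ q) (cut lam r))

/-- The closed set `K`: points `(p,q,r)` with `p = q` or `r = lam`. -/
def K (lam : Ordinal.{0}) : Set (PP lam → Bool) :=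
  {χ | χ ∈ FS (PP lam) ∧ ((∀ ξ, χ (Sum.inl ξ) = χ (Sum.inr (Sum.inl ξ))) ∨
    ∀ x, χ (Sum.inr (Sum.inr x)) = false)}

theorem K_subset (lam : Ordinal.{0}) : K lam ⊆ FS (PP lam) := fun _ h => h.1

theorem isClosed_FS (P : Type) [PartialOrder P] : IsClosed (FS P) := by
  have : FS P = ⋂ (x : P) (y : P) (_ : x ≤ y),
      (fun χ : P → Bool => (χ x, χ y)) ⁻¹' {b : Bool × Bool | b.1 = true → b.2 = true} := by
    ext χ
    simp [FS]
  rw [this]
  refine isClosed_iInter fun x => isClosed_iInter fun y => isClosed_iInter fun _ => ?_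
  exact (isClosed_discrete _).preimage (by fun_prop)

theorem isClosed_K (lam : Ordinal.{0}) : IsClosed (K lam) := by
  have : K lam = FS (PP lam) ∩ ((⋂ (ξ : (ω₁ : Ordinal.{0}).ToType),
      (fun χ : PP lam → Bool => (χ (Sum.inl ξ), χ (Sum.inr (Sum.inl ξ)))) ⁻¹'
        {b : Bool × Bool | b.1 = b.2}) ∪ ⋂ (x : lam.ToType),
      (fun χ : PP lam → Bool => χ (Sum.inr (Sum.inr x))) ⁻¹' {false}) := by
    ext χ
    simp only [K, mem_ofPred_eq, mem_inter_iff, mem_union, mem_iInter, mem_preimage,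
      mem_singleton_iff]
  rw [this]
  refine (isClosed_FS _).inter (IsClosed.union ?_ ?_)
  · exact isClosed_iInter fun ξ => (isClosed_discrete _).preimage (by fun_prop)
  · exact isClosed_iInter fun x => (isClosed_discrete _).preimage (by fun_prop)

theorem pt_mem_FS (lam p q r : Ordinal.{0}) : pt lam p q r ∈ FS (PP lam) := by
  rintro (x | x | x) (y | y | y) hxy h
  · have hxy' := Sum.inl_le_inl_iff.1 hxy
    exact cut_true.2 ((cut_true.1 h).trans (toOrd_le_toOrd hxy'))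
  · exact absurd hxy Sum.not_inl_le_inr
  · exact absurd hxy Sum.not_inl_le_inr
  · exact absurd hxy Sum.not_inr_le_inl
  · have hxy' := Sum.inl_le_inl_iff.1 (Sum.inr_le_inr_iff.1 hxy)
    exact cut_true.2 ((cut_true.1 h).trans (toOrd_le_toOrd hxy'))
  · exact absurd (Sum.inr_le_inr_iff.1 hxy) Sum.not_inl_le_inr
  · exact absurd hxy Sum.not_inr_le_inl
  · exact absurd (Sum.inr_le_inr_iff.1 hxy) Sum.not_inr_le_inl
  · have hxy' := Sum.inr_le_inr_iff.1 (Sum.inr_le_inr_iff.1 hxy)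
    exact cut_true.2 ((cut_true.1 h).trans (toOrd_le_toOrd hxy'))

/-- The point `(p, q, lam)` of `K`. -/
noncomputable def kt (lam p q : Ordinal.{0}) : K lam :=
  ⟨pt lam p q lam, pt_mem_FS _ _ _ _, Or.inr fun x => cut_top x⟩

/-- The point `(p, p, r)` of `K`. -/
noncomputable def kd (lam p r : Ordinal.{0}) : K lam :=
  ⟨pt lam p p r, pt_mem_FS _ _ _ _, Or.inl fun _ => rfl⟩

theorem tendsto_cut {ι : Type*} {l : Filter ι} {o p0 : Ordinal.{0}} {p : ι → Ordinal.{0}}
    (h1 : ∀ a < p0, ∀ᶠ i in l, a < p i) (h2 : ∀ᶠ i in l, p i ≤ p0) (x : o.ToType) :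
    ∀ᶠ i in l, cut o (p i) x = cut o p0 x := by
  by_cases hx : p0 ≤ (x.toOrd : Ordinal.{0})
  · filter_upwards [h2] with i hi
    rw [cut_true.2 hx, cut_true.2 (hi.trans hx)]
  · filter_upwards [h1 _ (not_le.1 hx)] with i hi
    rw [cut_false.2 (not_le.1 hx), cut_false.2 hi]

theorem tendsto_pt {ι : Type*} {l : Filter ι} {lam p0 q0 r0 : Ordinal.{0}}
    {p q r : ι → Ordinal.{0}}
    (hp1 : ∀ a < p0, ∀ᶠ i in l, a < p i) (hp2 : ∀ᶠ i in l, p i ≤ p0)
    (hq1 : ∀ a < q0, ∀ᶠ i in l, a < q i) (hq2 : ∀ᶠ i in l, q i ≤ q0)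
    (hr1 : ∀ a < r0, ∀ᶠ i in l, a < r i) (hr2 : ∀ᶠ i in l, r i ≤ r0) :
    Tendsto (fun i => pt lam (p i) (q i) (r i)) l (𝓝 (pt lam p0 q0 r0)) := by
  rw [tendsto_pi_nhds]
  rintro (x | x | x)
  · apply tendsto_nhds_of_eventually_eq
    exact tendsto_cut hp1 hp2 x
  · apply tendsto_nhds_of_eventually_eq
    exact tendsto_cut hq1 hq2 x
  · apply tendsto_nhds_of_eventually_eq
    exact tendsto_cut hr1 hr2 x

end Pool.Agent.Skula
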