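import Pool.Agent.Skula.Points

/-!
# Cantor-Bendixson ranks in `K`
-/

namespace Pool.Agent.Skula

open Set Topology Order Filter Ordinal

/-- An upper bound for ranks off the diagonal. -/
noncomputable def rk (p q : Ordinal.{0}) : Ordinal.{0} := (ω₁ + 1) * p + q

theorem rk_lt {p q p' q' : Ordinal.{0}} (hp : p' ≤ p) (hq : q' ≤ q) (hq1 : q' ≤ ω₁)
    (hne : ¬ (p' = p ∧ q' = q)) : rk p' q' < rk p q := by
  unfold rk
  rcases hp.lt_or_eq with h | h
  · calc (ω₁ + 1) * p' + q' < (ω₁ + 1) * p' + (ω₁ + 1) := by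
          apply (add_lt_add_iff_left _).2
          exact lt_of_le_of_lt hq1 (by rw [← succ_eq_add_one]; exact lt_succ _)
      _ = (ω₁ + 1) * (p' + 1) := by rw [mul_add_one]
      _ ≤ (ω₁ + 1) * p := by
          gcongr
          rw [← succ_eq_add_one]
          exact succ_le_of_lt h
      _ ≤ (ω₁ + 1) * p + q := le_add_right le_rfl
  · subst h
    have : q' < q := lt_of_le_of_ne hq (fun h => hne ⟨rfl, h⟩)
    exact (add_lt_add_iff_left _).2 this

/-- every point of `K` off the diagonal is some `(p, q, lam)` -/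
theorem exists_kt {lam : Ordinal.{0}} (χ : K lam) (ξ : (ω₁ : Ordinal.{0}).ToType)
    (h : χ.1 (Sum.inl ξ) ≠ χ.1 (Sum.inr (Sum.inl ξ))) :
    ∃ p ≤ ω₁, ∃ q ≤ ω₁, χ = kt lam p q := by
  obtain ⟨χ, hF, hK⟩ := χ
  obtain ⟨p, hp, hpe⟩ := exists_cut (fun x => χ (Sum.inl x))
    (fun x y hxy hx => hF _ _ (Sum.inl_le_inl_iff.2 hxy) hx)
  obtain ⟨q, hq, hqe⟩ := exists_cut (fun x => χ (Sum.inr (Sum.inl x)))
    (fun x y hxy hx => hF _ _ (Sum.inr_le_inr_iff.2 (Sum.inl_le_inl_iff.2 hxy)) hx)
  refine ⟨p, hp, q, hq, ?_⟩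
  rcases hK with hK | hK
  · exact absurd (hK ξ) h
  · apply Subtype.ext
    funext x
    rcases x with x | x | x
    · exact congrFun hpe x
    · exact congrFun hqe x
    · show χ (Sum.inr (Sum.inr x)) = cut lam lam x
      rw [hK, cut_top]

theorem isOpen_coord {lam : Ordinal.{0}} (x : PP lam) (b : Bool) :
    IsOpen {χ : K lam | χ.1 x = b} := by
  have : Continuous (fun χ : K lam => χ.1 x) := (continuous_apply x).comp continuous_subtype_val
  exact (isOpen_discrete {b}).preimage this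

theorem rank_le {lam : Ordinal.{0}} (ξ : (ω₁ : Ordinal.{0}).ToType) (α : Ordinal.{0}) :
    ∀ p ≤ ω₁, ∀ q ≤ ω₁, (kt lam p q).1 (Sum.inl ξ) = false →
      (kt lam p q).1 (Sum.inr (Sum.inl ξ)) = true → kt lam p q ∈ cb (K lam) α → α ≤ rk p q := by
  induction α using Ordinal.limitRecOn with
  | zero => intro p _ q _ _ _ _; exact zero_le
  | add_one α ih =>
    intro p hp q hq h1 h2 hmem
    rw [mem_cb_succ] at hmem
    obtain ⟨hmem, hV⟩ := hmem
    have hopen : IsOpen ({χ : K lam | χ.1 (Sum.inl ξ) = false} ∩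
        {χ : K lam | χ.1 (Sum.inr (Sum.inl ξ)) = true} ∩
        {χ : K lam | ∀ h : p < ω₁, χ.1 (Sum.inl (elt p h)) = true} ∩
        {χ : K lam | ∀ h : q < ω₁, χ.1 (Sum.inr (Sum.inl (elt q h))) = true}) := by
      refine (((isOpen_coord _ _).inter (isOpen_coord _ _)).inter ?_).inter ?_
      · by_cases h : p < ω₁
        · have : {χ : K lam | ∀ h : p < ω₁, χ.1 (Sum.inl (elt p h)) = true} =
              {χ : K lam | χ.1 (Sum.inl (elt p h)) = true} := by
            ext χ; exact ⟨fun g => g h, fun g _ => g⟩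
          rw [this]; exact isOpen_coord _ _
        · have : {χ : K lam | ∀ h : p < ω₁, χ.1 (Sum.inl (elt p h)) = true} = Set.univ := by
            ext χ; exact ⟨fun g => trivial, fun g h' => absurd h' h⟩
          rw [this]; exact isOpen_univ
      · by_cases h : q < ω₁
        · have : {χ : K lam | ∀ h : q < ω₁, χ.1 (Sum.inr (Sum.inl (elt q h))) = true} =
              {χ : K lam | χ.1 (Sum.inr (Sum.inl (elt q h))) = true} := by
            ext χ; exact ⟨fun g => g h, fun g _ => g⟩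
          rw [this]; exact isOpen_coord _ _
        · have : {χ : K lam | ∀ h : q < ω₁, χ.1 (Sum.inr (Sum.inl (elt q h))) = true} = Set.univ := by
            ext χ; exact ⟨fun g => trivial, fun g h' => absurd h' h⟩
          rw [this]; exact isOpen_univ
    obtain ⟨y, hyV, hyc, hyne⟩ := hV _ hopen (by
      refine ⟨⟨⟨h1, h2⟩, ?_⟩, ?_⟩
      · intro h
        show cut ω₁ p (elt p h) = true
        rw [cut_true, toOrd_elt]
      · intro h
        show cut ω₁ q (elt q h) = true
        rw [cut_true, toOrd_elt])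
    obtain ⟨⟨⟨hy1, hy2⟩, hy3⟩, hy4⟩ := hyV
    obtain ⟨p', hp', q', hq', rfl⟩ := exists_kt y ξ (by
      have e1 : y.1 (Sum.inl ξ) = false := hy1
      have e2 : y.1 (Sum.inr (Sum.inl ξ)) = true := hy2
      rw [e1, e2]; decide)
    have hpp : p' ≤ p := by
      by_cases h : p < ω₁
      · have := hy3 h
        have h3 : cut ω₁ p' (elt p h) = true := this
        rwa [cut_true, toOrd_elt] at h3
      · exact hp'.trans (not_lt.1 h)
    have hqq : q' ≤ q := by
      by_cases h : q < ω₁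
      · have := hy4 h
        have h3 : cut ω₁ q' (elt q h) = true := this
        rwa [cut_true, toOrd_elt] at h3
      · exact hq'.trans (not_lt.1 h)
    have hlt : rk p' q' < rk p q := rk_lt hpp hqq hq' (by
      rintro ⟨rfl, rfl⟩
      exact hyne rfl)
    have := ih p' hp' q' hq' hy1 hy2 hyc
    rw [← succ_eq_add_one]
    exact succ_le_of_lt (lt_of_le_of_lt this hlt)
  | limit α hα ih =>
    intro p hp q hq h1 h2 hmem
    rw [cb_limit _ _ hα] at hmem
    simp only [mem_iInter] at hmem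
    refine le_of_forall_lt fun β hβ => ?_
    have h3 := ih (succ β) (hα.succ_lt hβ) p hp q hq h1 h2 (hmem _ (hα.succ_lt hβ))
    exact lt_of_lt_of_le (lt_succ β) h3

theorem noMaxOrder_Iio {o : Ordinal.{0}} (ho : IsSuccLimit o) : NoMaxOrder (Iio o) :=
  ⟨fun a => ⟨⟨succ a.1, ho.succ_lt a.2⟩, lt_succ a.1⟩⟩

theorem nonempty_Iio {o : Ordinal.{0}} (ho : IsSuccLimit o) : Nonempty (Iio o) :=
  ⟨⟨0, ho.bot_lt⟩⟩

theorem tendsto_Iio {o : Ordinal.{0}} (ho : IsSuccLimit o) :
    ∀ a < o, ∀ᶠ i : Iio o in atTop, a < (i : Ordinal.{0}) := by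
  intro a ha
  have := noMaxOrder_Iio ho
  have h := eventually_gt_atTop (⟨a, ha⟩ : Iio o)
  filter_upwards [h] with i hi
  exact hi

theorem tendsto_kd {lam p o : Ordinal.{0}} (ho : IsSuccLimit o) :
    Tendsto (fun i : Iio o => kd lam p i) atTop (𝓝 (kd lam p o)) := by
  apply tendsto_subtype_rng.2
  refine tendsto_pt ?_ ?_ ?_ ?_ ?_ ?_
  · intro a ha; exact Eventually.of_forall fun _ => ha
  · exact Eventually.of_forall fun _ => le_rfl
  · intro a ha; exact Eventually.of_forall fun _ => ha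
  · exact Eventually.of_forall fun _ => le_rfl
  · exact tendsto_Iio ho
  · exact Eventually.of_forall fun i => le_of_lt i.2

/-- Points on a vertical line above the diagonal have large rank. -/
theorem line_mem {lam p : Ordinal.{0}} (γ : Ordinal.{0}) :
    ∀ γ', γ ≤ γ' → ∀ β, β + ω ^ γ' ≤ lam → kd lam p (β + ω ^ γ') ∈ cb (K lam) γ := by
  induction γ using Ordinal.limitRecOn with
  | zero => intro γ' _ β _; rw [cb_zero]; trivial
  | add_one γ ih =>
    intro γ' hγ β hβ
    have hlt : γ < γ' := by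
      rw [← succ_eq_add_one] at hγ
      exact succ_le_iff.1 hγ
    rw [mem_cb_succ]
    refine ⟨ih γ' hlt.le β hβ, fun V hV hmem => ?_⟩
    have hlim : IsSuccLimit (β + ω ^ γ') :=
      isSuccLimit_add _ (isSuccLimit_opow_left isSuccLimit_omega0 (by
        rintro rfl
        exact not_lt_bot hlt))
    have hev := (tendsto_kd (lam := lam) (p := p) hlim).eventually (hV.mem_nhds hmem)
    have := nonempty_Iio hlim
    obtain ⟨⟨δ, hδ⟩, hδV⟩ := eventually_atTop.1 hev
    obtain ⟨ε, hε⟩ : ∃ ε, max δ β = β + ε := ⟨max δ β - β, by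
      rw [Ordinal.add_sub_cancel_of_le (le_max_right _ _)]⟩
    have hε2 : ε < ω ^ γ' := by
      have h1 : max δ β < β + ω ^ γ' := max_lt hδ (by
        conv_lhs => rw [← add_zero β]
        exact (add_lt_add_iff_left _).2 (opow_pos _ omega0_pos))
      rw [hε] at h1
      exact (add_lt_add_iff_left _).1 h1
    have ht : β + ε + ω ^ γ < β + ω ^ γ' := by
      rw [add_assoc]
      apply (add_lt_add_iff_left _).2
      exact isPrincipal_add_omega0_opow γ' hε2 ((opow_lt_opow_iff_right one_lt_omega0).2 hlt)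
    refine ⟨kd lam p (β + ε + ω ^ γ), ?_, ?_, ?_⟩
    · refine hδV ⟨β + ε + ω ^ γ, ht⟩ ?_
      show δ ≤ β + ε + ω ^ γ
      calc δ ≤ max δ β := le_max_left _ _
        _ = β + ε := hε
        _ ≤ β + ε + ω ^ γ := le_add_right le_rfl
    · exact ih γ le_rfl (β + ε) (ht.le.trans hβ)
    · intro heq
      have h1 : (kd lam p (β + ε + ω ^ γ)).1 (Sum.inr (Sum.inr (elt (β + ε + ω ^ γ)
          (lt_of_lt_of_le ht hβ)))) = true := by
        show cut lam _ _ = true
        rw [cut_true, toOrd_elt]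
      rw [heq] at h1
      have h2 : cut lam (β + ω ^ γ') (elt (β + ε + ω ^ γ) (lt_of_lt_of_le ht hβ)) = true := h1
      rw [cut_true, toOrd_elt] at h2
      exact absurd h2 (not_le.2 ht)
  | limit γ hγ ih =>
    intro γ' hγ' β hβ
    rw [cb_limit _ _ hγ]
    simp only [mem_iInter]
    intro δ hδ
    exact ih δ hδ γ' (hδ.le.trans hγ') β hβ

end Pool.Agent.Skula
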